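import Mathlib
import Pool.Agent.H498Z.Tri.Suff

set_option autoImplicit false

namespace Pool.Agent.Results.MP_fb3fae_co.ANoReflection

open Pool.Agent.H498Z.Tri

/-- A nondegenerate triangle is, without reflections, the common face of a convex polyhedron
if and only if it is isosceles or acute. -/
theorem result : ∀ t : Fin 3 → E3, AffineIndependent ℝ t →
    ((∃ P : Set E3, IsConvexPolyhedron P ∧
        ∀ F : Set E3, IsTwoFace P F → IsOutwardCopy t P F) ↔
      ((dist (t 0) (t 1) = dist (t 1) (t 2) ∨ dist (t 1) (t 2) = dist (t 2) (t 0) ∨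
          dist (t 2) (t 0) = dist (t 0) (t 1)) ∨
        (EuclideanGeometry.angle (t 1) (t 0) (t 2) < Real.pi / 2 ∧
          EuclideanGeometry.angle (t 2) (t 1) (t 0) < Real.pi / 2 ∧
          EuclideanGeometry.angle (t 0) (t 2) (t 1) < Real.pi / 2))) :=
  fun t ht => main t ht

end Pool.Agent.Results.MP_fb3fae_co.ANoReflection
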